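import Pool.Agent.Helper21.W4.St5

/-!
# W4: module Tar
-/

set_option autoImplicit false

namespace Pool.Agent.Helper3.W4

open Pool.Agent.Helper21.W4 Finset

open Classical in
private lemma seg (B : ℕ) (P : ℕ → Prop) (hd : ∀ a b, P a → b ≤ a → P b)
    (hB : ∀ a, P a → a < B) (p : ℕ) : p < ((range B).filter P).card ↔ P p := by
  have h : ∃ n, ∀ a, P a ↔ a < n := by
    by_contra hcon
    push Not at hcon
    have hall : ∀ n, ∀ a, a < n → P a := by
      intro n
      induction n with
      | zero => intro a ha; omega
      | succ n ih =>
        have h1 : P n := by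
          by_contra hn
          obtain ⟨a, ha⟩ := hcon n
          rcases ha with ⟨h2, h3⟩ | ⟨h2, h3⟩
          · exact hn (hd a n h2 (by omega))
          · exact h2 (ih a h3)
        intro a ha
        rcases Nat.lt_succ_iff_lt_or_eq.1 ha with h | h
        · exact ih a h
        · rw [h]; exact h1
    have := hB B (hall (B + 1) B (by omega))
    omega
  obtain ⟨n, hn⟩ := h
  have hnB : n ≤ B := by
    rcases Nat.eq_zero_or_pos n with h | h
    · omega
    · have := hB (n - 1) ((hn (n - 1)).2 (by omega))
      omega
  have : (range B).filter P = range n := by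
    ext a
    simp only [mem_filter, mem_range]
    constructor
    · intro h; exact (hn a).1 h.2
    · intro h; exact ⟨by omega, (hn a).2 h⟩
  rw [this, card_range]
  exact (hn p).symm

theorem hTar : StTar := by
  classical
  intro G _ D g1 g2 g3 hD
  obtain ⟨B, hB⟩ := hD.fin
  have e1 : ∀ p q r, p < ((range B).filter fun p => D p q r).card ↔ D p q r := fun p q r =>
    seg B (fun p => D p q r) (fun a b ha hb => hD.down a q r b q r ha hb le_rfl le_rfl)
      (fun a ha => by have := (hB a q r ha).1; omega) p
  have e2 : ∀ p q r, q < ((range B).filter fun q => D p q r).card ↔ D p q r := fun p q r =>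
    seg B (fun q => D p q r) (fun a b ha hb => hD.down p a r p b r ha le_rfl hb le_rfl)
      (fun a ha => by have := (hB p a r ha).2.1; omega) q
  have e3 : ∀ p q r, r < ((range B).filter fun r => D p q r).card ↔ D p q r := fun p q r =>
    seg B (fun r => D p q r) (fun a b ha hb => hD.down p q a p q b ha le_rfl le_rfl hb)
      (fun a ha => by have := (hB p q a ha).2.2; omega) r
  refine ⟨B, fun q r => ((range B).filter fun p => D p q r).card,
    fun p r => ((range B).filter fun q => D p q r).card,
    fun p q => ((range B).filter fun r => D p q r).card, ?_, fun p q r => ?_⟩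
  · constructor
    · intro p q r
      exact (e1 p q r).trans (e2 p q r).symm
    · intro p q r
      exact (e1 p q r).trans (e3 p q r).symm
    · intro p q r h
      exact hB p q r ((e1 p q r).1 h)
    · exact (e1 1 0 0).2 hD.one.1
    · exact (e2 0 1 0).2 hD.one.2.1
    · exact (e3 0 0 1).2 hD.one.2.2
  · exact e1 p q r

end Pool.Agent.Helper3.W4
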